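import Mathlib
import Pool.Agent.TH700.PA.Density
import Pool.Agent.TH700.PA.Count

/-! Tensor networks and mixtures of planted independent sets (helper329). -/

set_option autoImplicit false
set_option linter.unusedSectionVars false
set_option linter.unusedVariables false

open Finset Pool.Agent.TH700.PA

namespace Pool.Agent.Q329.TI

/-- The planted input of the labels `l`: the bit of the pair `e` is `false` if and only if both ends
have a label that is not zero. -/
def plant {V E : Type} {h : ℕ} (ends : E → V × V) (l : V → Fin (h + 1)) (e : E) : Bool :=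
  decide (l (ends e).1 = 0 ∨ l (ends e).2 = 0)

section count

variable {Y κ : Type} [Fintype Y] [DecidableEq Y] [Fintype κ] [DecidableEq κ]

lemma card_mem (S : Finset κ) (Z : Finset Y) :
    (univ.filter fun f : Y → κ => ∀ z ∈ Z, f z ∈ S).card * Fintype.card κ ^ Z.card =
      S.card ^ Z.card * Fintype.card κ ^ Fintype.card Y := by
  have h1 : (univ.filter fun f : Y → κ => ∀ z ∈ Z, f z ∈ S) =
      Fintype.piFinset fun y => if y ∈ Z then S else univ := by
    ext f
    rw [mem_filter, Fintype.mem_piFinset]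
    constructor
    · rintro ⟨-, h⟩ y
      by_cases hy : y ∈ Z
      · rw [if_pos hy]; exact h y hy
      · rw [if_neg hy]; exact mem_univ _
    · intro h
      refine ⟨mem_univ _, fun z hz => ?_⟩
      have := h z
      rwa [if_pos hz] at this
  have h2 : ∀ y, (if y ∈ Z then S else (univ : Finset κ)).card =
      if y ∈ Z then S.card else Fintype.card κ := by
    intro y
    split_ifs
    · rfl
    · exact card_univ
  rw [h1, Fintype.card_piFinset, prod_congr rfl fun y _ => h2 y, prod_ite, prod_const, prod_const,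
    filter_mem_eq_inter, univ_inter, mul_assoc, ← pow_add]
  congr 2
  have h3 : (univ.filter fun y => y ∉ Z) = Zᶜ := by
    ext y; simp
  rw [h3, card_compl]
  exact Nat.sub_add_cancel (card_le_univ Z)

end count

lemma bern {h : ℕ} (hh : 1 ≤ h) : 2 * h ^ h ≤ (h + 1) ^ h := by
  have hR : (0 : ℝ) < h := by exact_mod_cast hh
  have h1 := one_add_mul_le_pow (a := 1 / (h : ℝ)) (by
    have : (0 : ℝ) ≤ 1 / (h : ℝ) := by positivity
    linarith) h
  have h2 : 1 + (h : ℝ) * (1 / h) = 2 := by field_simp; norm_num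
  rw [h2] at h1
  have h3 : ((h : ℝ) + 1) ^ h = (1 + 1 / (h : ℝ)) ^ h * (h : ℝ) ^ h := by
    rw [← mul_pow]
    congr 1
    field_simp
  have h4 : (2 : ℝ) * (h : ℝ) ^ h ≤ ((h : ℝ) + 1) ^ h := by
    rw [h3]
    exact mul_le_mul_of_nonneg_right h1 (by positivity)
  exact_mod_cast h4

/-- few assignments avoid zero on a large set -/
lemma card_avoid {Y : Type} [Fintype Y] [DecidableEq Y] {h r : ℕ} (hh : 1 ≤ h) (Z : Finset Y)
    (hZ : h * r ≤ Z.card) :
    (univ.filter fun f : Y → Fin (h + 1) => ∀ z ∈ Z, f z ≠ 0).card * 2 ^ r ≤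
      (h + 1) ^ Fintype.card Y := by
  obtain ⟨Z', hZ', hc⟩ := exists_subset_card_eq hZ
  have h1 := card_mem (κ := Fin (h + 1)) (univ.erase 0) Z'
  rw [hc, card_erase_of_mem (mem_univ _), card_univ, Fintype.card_fin, Nat.add_sub_cancel] at h1
  have h2 : (univ.filter fun f : Y → Fin (h + 1) => ∀ z ∈ Z, f z ≠ 0).card ≤
      (univ.filter fun f : Y → Fin (h + 1) => ∀ z ∈ Z', f z ∈ univ.erase 0).card := by
    refine card_le_card fun f hf => ?_
    rw [mem_filter] at hf ⊢
    refine ⟨mem_univ _, fun z hz => ?_⟩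
    rw [mem_erase]
    exact ⟨hf.2 z (hZ' hz), mem_univ _⟩
  refine (Nat.mul_le_mul_right _ h2).trans ?_
  obtain ⟨X, hX⟩ : ∃ X, X =
    (univ.filter fun f : Y → Fin (h + 1) => ∀ z ∈ Z', f z ∈ univ.erase 0).card := ⟨_, rfl⟩
  rw [← hX] at h1 ⊢
  have h3 : 2 ^ r * h ^ (h * r) ≤ (h + 1) ^ (h * r) := by
    rw [pow_mul, pow_mul, ← mul_pow]
    exact Nat.pow_le_pow_left (bern hh) r
  have hpos : 0 < h ^ (h * r) := Nat.pow_pos hh
  refine Nat.le_of_mul_le_mul_left ?_ hpos
  calc h ^ (h * r) * (X * 2 ^ r) = X * (2 ^ r * h ^ (h * r)) := by ring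
    _ ≤ X * (h + 1) ^ (h * r) := Nat.mul_le_mul_left _ h3
    _ = _ := h1

/-- most assignments have few zeros -/
lemma card_good {V : Type} [Fintype V] [DecidableEq V] [Nonempty V] (h : ℕ) :
    Fintype.card (V → Fin (h + 1)) ≤ 2 ^ 1 * (univ.filter fun l : V → Fin (h + 1) =>
      (h + 1) * (univ.filter fun v => l v = 0).card ≤ 2 * Fintype.card V).card := by
  obtain ⟨G, hG⟩ : ∃ G : Finset (V → Fin (h + 1)), G = univ.filter fun l : V → Fin (h + 1) =>
      (h + 1) * (univ.filter fun v => l v = 0).card ≤ 2 * Fintype.card V := ⟨_, rfl⟩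
  rw [← hG]
  have hsum : ∑ l : V → Fin (h + 1), (h + 1) * (univ.filter fun v => l v = 0).card =
      Fintype.card V * Fintype.card (V → Fin (h + 1)) := by
    simp only [card_filter]
    rw [← mul_sum, sum_comm, mul_sum]
    have h1 : ∀ v : V, (h + 1) * ∑ l : V → Fin (h + 1), (if l v = 0 then 1 else 0) =
        Fintype.card (V → Fin (h + 1)) := by
      intro v
      have h2 := card_mem (κ := Fin (h + 1)) {0} ({v} : Finset V)
      rw [card_singleton, card_singleton, pow_one, pow_one, one_mul, Fintype.card_fin] at h2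
      rw [← card_filter, Fintype.card_fun, Fintype.card_fin, mul_comm, ← h2]
      congr 2
      ext l
      simp
    rw [sum_congr rfl fun v _ => h1 v, sum_const, card_univ, smul_eq_mul]
  have hV : 0 < Fintype.card V := Fintype.card_pos
  have h2 : (univ \ G).card * (2 * Fintype.card V) ≤
      ∑ l : V → Fin (h + 1), (h + 1) * (univ.filter fun v => l v = 0).card := by
    refine le_trans ?_ (sum_le_sum_of_subset (subset_univ (univ \ G)))
    rw [← smul_eq_mul, ← sum_const]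
    refine sum_le_sum fun l hl => ?_
    rw [mem_sdiff, hG, mem_filter] at hl
    have := hl.2
    push Not at this
    exact (this (mem_univ _)).le
  rw [hsum, card_univ_sdiff] at h2
  have h3 : (Fintype.card (V → Fin (h + 1)) - G.card) * 2 ≤ Fintype.card (V → Fin (h + 1)) := by
    refine Nat.le_of_mul_le_mul_right ?_ hV
    calc _ = (Fintype.card (V → Fin (h + 1)) - G.card) * (2 * Fintype.card V) := by ring
      _ ≤ _ := h2
      _ = _ := mul_comm _ _
  have h4 : G.card ≤ Fintype.card (V → Fin (h + 1)) := card_le_univ G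
  omega

/-- the ends touched by the parts -/
lemma touched {V E : Type} [Fintype V] [DecidableEq V] [Fintype E] [DecidableEq E]
    (ends : E → V × V) (hinj : Function.Injective ends) {s t θ : ℕ} (hs : 2 * θ ≤ s ^ 2)
    (p : E → Fin t) (hp : ∀ j, (univ.filter fun e => p e = j).card ≤ 2 * θ) (F : Finset E) :
    F.card ≤ s * (F.image (fun e => (p e, (ends e).1)) ∪ F.image fun e => (p e, (ends e).2)).card := by
  obtain ⟨Z, hZ⟩ : ∃ Z, Z =
    F.image (fun e => (p e, (ends e).1)) ∪ F.image fun e => (p e, (ends e).2) := ⟨_, rfl⟩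
  rw [← hZ]
  rw [card_eq_sum_card_fiberwise (s := F) (f := p) (t := univ) (fun _ _ => mem_univ _),
    card_eq_sum_card_fiberwise (s := Z) (f := Prod.fst) (t := univ) (fun _ _ => mem_univ _),
    mul_sum]
  refine sum_le_sum fun j _ => ?_
  have h1 : (F.filter fun e => p e = j).card ≤ s ^ 2 := by
    refine le_trans (card_le_card fun e he => ?_) ((hp j).trans hs)
    exact mem_filter.mpr ⟨mem_univ _, (mem_filter.mp he).2⟩
  obtain ⟨z, hz⟩ : ∃ z, z = (Z.filter fun y => y.1 = j).card := ⟨_, rfl⟩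
  have h2 : (F.filter fun e => p e = j).card ≤ z * z := by
    rw [hz, ← card_product]
    refine card_le_card_of_injOn (fun e => ((p e, (ends e).1), (p e, (ends e).2))) ?_ ?_
    · intro e he
      obtain ⟨he1, he2⟩ := mem_filter.mp (mem_coe.mp he)
      refine mem_coe.mpr (mem_product.mpr ⟨mem_filter.mpr ⟨?_, he2⟩, mem_filter.mpr ⟨?_, he2⟩⟩)
      · rw [hZ]
        exact mem_union_left _ (mem_image_of_mem (fun e => (p e, (ends e).1)) he1)
      · rw [hZ]
        exact mem_union_right _ (mem_image_of_mem (fun e => (p e, (ends e).2)) he1)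
    · intro e _ e' _ hee
      have e1 := (Prod.mk.inj (Prod.mk.inj hee).1).2
      have e2 := (Prod.mk.inj (Prod.mk.inj hee).2).2
      exact hinj (Prod.ext e1 e2)
  rw [← hz]
  rcases le_total z s with h | h
  · exact h2.trans (Nat.mul_le_mul_right _ h)
  · refine h1.trans ?_
    rw [sq]
    exact Nat.mul_le_mul_left _ h

open Classical in
/-- Most mixtures have no witness. -/
theorem few_bad {V E Wt : Type} [Fintype V] [DecidableEq V] [Fintype E] [DecidableEq E]
    [Fintype Wt] (ends : E → V × V) (hinj : Function.Injective ends) {h r s t θ : ℕ} (hh : 1 ≤ h)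
    (hs1 : 1 ≤ s) (hs : 2 * θ ≤ s ^ 2) (p : E → Fin t)
    (hp : ∀ j, (univ.filter fun e => p e = j).card ≤ 2 * θ) (EW : Wt → Finset E)
    (hEW : ∀ w, h * r * s ≤ (EW w).card) {N : ℕ} (hN : Fintype.card Wt * N ≤ 2 ^ r) :
    ∃ B : Finset (Fin t → V → Fin (h + 1)),
      (∀ b, (∃ w, ∀ e ∈ EW w, mixp p (plant ends) b e = false) → b ∈ B) ∧
      B.card * N ≤ Fintype.card (V → Fin (h + 1)) ^ t := by
  obtain ⟨Z, hZ⟩ : ∃ Z : Wt → Finset (Fin t × V), Z = fun w =>
    (EW w).image (fun e => (p e, (ends e).1)) ∪ (EW w).image fun e => (p e, (ends e).2) := ⟨_, rfl⟩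
  have hZc : ∀ w, h * r ≤ (Z w).card := by
    intro w
    have h1 := touched ends hinj hs p hp (EW w)
    have h2 : h * r * s ≤ (Z w).card * s := by
      refine (hEW w).trans (h1.trans (le_of_eq ?_))
      rw [hZ, mul_comm]
    exact Nat.le_of_mul_le_mul_right h2 hs1
  obtain ⟨Bw, hBw⟩ : ∃ Bw : Wt → Finset (Fin t → V → Fin (h + 1)), Bw = fun w =>
    univ.filter fun b => ∀ z ∈ Z w, b z.1 z.2 ≠ 0 := ⟨_, rfl⟩
  have hcard : Fintype.card (V → Fin (h + 1)) ^ t = (h + 1) ^ Fintype.card (Fin t × V) := by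
    rw [Fintype.card_fun, Fintype.card_fin, Fintype.card_prod, Fintype.card_fin, ← pow_mul,
      mul_comm]
  have hBwc : ∀ w, (Bw w).card * 2 ^ r ≤ Fintype.card (V → Fin (h + 1)) ^ t := by
    intro w
    rw [hcard]
    refine le_trans (Nat.mul_le_mul_right _ ?_) (card_avoid hh (Z w) (hZc w))
    refine card_le_card_of_injOn (fun b z => b z.1 z.2) ?_ ?_
    · intro b hb
      rw [hBw] at hb
      exact mem_coe.mpr (mem_filter.mpr ⟨mem_univ _, (mem_filter.mp (mem_coe.mp hb)).2⟩)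
    · intro b _ b' _ hbb
      funext j v
      exact congrFun hbb (j, v)
  refine ⟨univ.biUnion Bw, ?_, ?_⟩
  · rintro b ⟨w, hw⟩
    rw [mem_biUnion]
    refine ⟨w, mem_univ _, ?_⟩
    rw [hBw, mem_filter]
    refine ⟨mem_univ _, fun z hz => ?_⟩
    rw [hZ] at hz
    have key : ∀ e ∈ EW w, b (p e) (ends e).1 ≠ 0 ∧ b (p e) (ends e).2 ≠ 0 := by
      intro e he
      have h1 := hw e he
      unfold mixp plant at h1
      rw [decide_eq_false_iff_not, not_or] at h1
      exact h1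
    rcases mem_union.mp hz with hz | hz
    · obtain ⟨e, he, rfl⟩ := mem_image.mp hz
      exact (key e he).1
    · obtain ⟨e, he, rfl⟩ := mem_image.mp hz
      exact (key e he).2
  · have h1 : (univ.biUnion Bw).card * N * 2 ^ r ≤ Fintype.card (V → Fin (h + 1)) ^ t * 2 ^ r := by
      calc (univ.biUnion Bw).card * N * 2 ^ r ≤ (∑ w, (Bw w).card) * N * 2 ^ r :=
            Nat.mul_le_mul_right _ (Nat.mul_le_mul_right _ card_biUnion_le)
        _ = (∑ w, (Bw w).card * 2 ^ r) * N := by rw [← sum_mul]; ring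
        _ ≤ (∑ _w : Wt, Fintype.card (V → Fin (h + 1)) ^ t) * N :=
            Nat.mul_le_mul_right _ (sum_le_sum fun w _ => hBwc w)
        _ = (Fintype.card Wt * N) * Fintype.card (V → Fin (h + 1)) ^ t := by
            rw [sum_const, card_univ, smul_eq_mul]; ring
        _ ≤ 2 ^ r * Fintype.card (V → Fin (h + 1)) ^ t := Nat.mul_le_mul_right _ hN
        _ = _ := mul_comm _ _
    exact Nat.le_of_mul_le_mul_right h1 (Nat.pow_pos (by norm_num))

/-- The general lower bound. -/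
theorem gen_lower (b c h : ℕ) (hb : 1 ≤ b) (hh : 1 ≤ h) : ∃ D : ℕ, 0 < D ∧ ∀ n : ℕ, D ≤ n →
    ∀ (V E Wt : Type) [Fintype V] [DecidableEq V] [Nonempty V] [Fintype E] [DecidableEq E]
      [Fintype Wt] (ends : E → V × V), Function.Injective ends → Fintype.card V ≤ n →
      Fintype.card Wt ≤ 2 ^ (c * n) → ∀ (EW : Wt → Finset E), (∀ w, n * n ≤ b * (EW w).card) →
      ∀ (μ : ℕ) (R : Type) [Fintype R] [Nonempty R] (K W : R → Type) [∀ ρ, Field (K ρ)]
        [∀ ρ, Fintype (W ρ)] (T : ∀ ρ, Net (K ρ) E Bool (W ρ)) (a : ∀ ρ, W ρ → K ρ),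
        (∀ ρ e, (T ρ).reads e ≤ 1) →
        (∀ ρ x, (∀ w, ∃ e ∈ EW w, x e = true) → (T ρ).value (a ρ) x = 0) →
        (∀ l : V → Fin (h + 1), (h + 1) * (univ.filter fun v => l v = 0).card ≤
            2 * Fintype.card V →
          Nat.card R ≤ 2 ^ μ * Nat.card {ρ // (T ρ).value (a ρ) (plant ends l) ≠ 0}) →
        ∃ ρ, 2 ^ n ≤ (2 ^ μ * Fintype.card (W ρ)) ^ D := by
  classical
  obtain ⟨κ, hκ⟩ : ∃ κ, κ = b * h * (c + 1) := ⟨_, rfl⟩
  have hκ1 : 1 ≤ κ := by
    rw [hκ]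
    exact Nat.mul_pos (Nat.mul_pos hb hh) (Nat.succ_pos c)
  obtain ⟨t, ht⟩ : ∃ t, t = 24 * κ ^ 2 + 1 := ⟨_, rfl⟩
  refine ⟨2 * κ + 2 * (t + 2) ^ 2 + 6 * (t + 1), by omega, ?_⟩
  intro n hn V E Wt _ _ _ _ _ _ ends hinj hV hWt EW hEW μ R _ _ K W _ _ T a h1 hno hyes
  have hn1 : 2 * κ ≤ n := by
    have := Nat.zero_le (2 * (t + 2) ^ 2)
    omega
  have hn2 : 2 * (t + 2) ^ 2 ≤ n := by omega
  obtain ⟨s, hs⟩ : ∃ s, s = n / κ := ⟨_, rfl⟩
  have hs2 : 2 ≤ s := by
    rw [hs, Nat.le_div_iff_mul_le hκ1]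
    exact hn1
  have hκs : κ * s ≤ n := by
    rw [hs]
    exact Nat.mul_div_le n κ
  have hns : n ≤ 2 * κ * s := by
    have h2 : n < κ * (s + 1) := by
      rw [hs]
      exact Nat.lt_mul_div_succ n hκ1
    have h3 : κ * 2 ≤ κ * s := Nat.mul_le_mul_left _ hs2
    have h4 : κ * (s + 1) = κ * s + κ := by ring
    have h5 : 2 * κ * s = κ * s + κ * s := by ring
    omega
  obtain ⟨θ, hθ⟩ : ∃ θ, θ = s ^ 2 / 2 := ⟨_, rfl⟩
  have hs4 : 4 ≤ s ^ 2 := by nlinarith
  have hθ1 : 1 ≤ θ := by omega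
  have hθs : 2 * θ ≤ s ^ 2 := by omega
  have hsθ : s ^ 2 ≤ 3 * θ := by omega
  have hE : 2 * Fintype.card E + θ ≤ θ * t := by
    have e1 : Fintype.card E ≤ n * n := by
      refine (Fintype.card_le_of_injective ends hinj).trans ?_
      rw [Fintype.card_prod]
      exact Nat.mul_le_mul hV hV
    have e2 : n * n ≤ 12 * κ ^ 2 * θ := by
      calc n * n ≤ (2 * κ * s) * (2 * κ * s) := Nat.mul_le_mul hns hns
        _ = 4 * κ ^ 2 * s ^ 2 := by ring
        _ ≤ 4 * κ ^ 2 * (3 * θ) := Nat.mul_le_mul_left _ hsθ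
        _ = _ := by ring
    rw [ht]
    have e3 : θ * (24 * κ ^ 2 + 1) = 2 * (12 * κ ^ 2 * θ) + θ := by ring
    rw [e3]
    omega
  obtain ⟨ρ, hρ, hw1⟩ := rand_density μ R K W T a h1 (θ := θ) (t := t) hθ1 (by omega) hE
    (U := V → Fin (h + 1)) (plant ends) (univ.filter fun l : V → Fin (h + 1) =>
      (h + 1) * (univ.filter fun v => l v = 0).card ≤ 2 * Fintype.card V) (η := 1)
    (card_good h) (fun l hl => hyes l (mem_filter.mp hl).2) (N := 2 ^ n) (fun ρ p hp => by
      obtain ⟨B, hB1, hB2⟩ := few_bad (N := 2 ^ n) (r := (c + 1) * n) ends hinj hh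
        (by omega : 1 ≤ s) hθs p hp EW (fun w => by
          refine Nat.le_of_mul_le_mul_left ?_ hb
          refine le_trans ?_ (hEW w)
          calc b * (h * ((c + 1) * n) * s) = n * (κ * s) := by rw [hκ]; ring
            _ ≤ n * n := Nat.mul_le_mul_left _ hκs) (by
          calc Fintype.card Wt * 2 ^ n ≤ 2 ^ (c * n) * 2 ^ n := Nat.mul_le_mul_right _ hWt
            _ = 2 ^ ((c + 1) * n) := by rw [← pow_add]; congr 1; ring)
      refine ⟨B, fun b hb => hB1 b ?_, hB2⟩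
      by_contra hcon
      push Not at hcon
      refine hb (hno ρ _ fun w => ?_)
      obtain ⟨e, he, hne⟩ := hcon w
      exact ⟨e, he, by simpa using hne⟩)
  refine ⟨ρ, ?_⟩
  obtain ⟨w, hw⟩ : ∃ w, w = Fintype.card (W ρ) := ⟨_, rfl⟩
  rw [← hw] at hρ hw1 ⊢
  obtain ⟨X, hX⟩ : ∃ X, X = 2 ^ μ * w := ⟨_, rfl⟩
  have hX1 : 1 ≤ X := by
    rw [hX]
    exact Nat.mul_pos (Nat.pow_pos (by norm_num)) hw1
  rw [← hX]
  have e1 : 2 ^ (μ + 1 + 1) * (t * w ^ 3) ≤ 2 ^ (t + 2) * X ^ 3 := by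
    have e2 : t ≤ 2 ^ t := Nat.lt_two_pow_self.le
    have e3 : 2 ^ μ ≤ (2 ^ μ) ^ 3 := by
      conv_lhs => rw [← pow_one (2 ^ μ)]
      exact Nat.pow_le_pow_right (Nat.pow_pos (by norm_num)) (by norm_num)
    calc 2 ^ (μ + 1 + 1) * (t * w ^ 3) = 4 * (2 ^ μ * (t * w ^ 3)) := by
          rw [pow_succ, pow_succ]; ring
      _ ≤ 4 * ((2 ^ μ) ^ 3 * (2 ^ t * w ^ 3)) := by
        refine Nat.mul_le_mul (by norm_num) (Nat.mul_le_mul e3 (Nat.mul_le_mul_right _ e2))
      _ = _ := by rw [hX, pow_add]; ring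
  have e4 : 2 ^ n ≤ 2 ^ ((t + 2) ^ 2) * X ^ (3 * (t + 1)) := by
    calc 2 ^ n ≤ (2 ^ (t + 2) * X ^ 3) ^ (t + 1) := hρ.trans (Nat.pow_le_pow_left e1 _)
      _ = 2 ^ ((t + 2) * (t + 1)) * X ^ (3 * (t + 1)) := by rw [mul_pow, ← pow_mul, ← pow_mul]
      _ ≤ _ := by
        refine Nat.mul_le_mul_right _ (Nat.pow_le_pow_right (by norm_num) ?_)
        rw [sq]
        exact Nat.mul_le_mul_left _ (by omega)
  have e5 : 2 ^ n * 2 ^ n ≤ 2 ^ n * X ^ (6 * (t + 1)) := by
    calc 2 ^ n * 2 ^ n ≤ (2 ^ ((t + 2) ^ 2) * X ^ (3 * (t + 1))) *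
          (2 ^ ((t + 2) ^ 2) * X ^ (3 * (t + 1))) := Nat.mul_le_mul e4 e4
      _ = 2 ^ (2 * (t + 2) ^ 2) * X ^ (6 * (t + 1)) := by
          rw [two_mul ((t + 2) ^ 2), pow_add, show 6 * (t + 1) = 3 * (t + 1) + 3 * (t + 1) by ring,
            pow_add X]
          ring
      _ ≤ _ := Nat.mul_le_mul_right _ (Nat.pow_le_pow_right (by norm_num) hn2)
  have e6 : 2 ^ n ≤ X ^ (6 * (t + 1)) :=
    Nat.le_of_mul_le_mul_left e5 (Nat.pow_pos (by norm_num))
  exact e6.trans (Nat.pow_le_pow_right hX1 (by omega))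

end Pool.Agent.Q329.TI
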