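import Pool.Agent.Q329.TI.Mix

/-! Tensor networks for the approximation of vertex covers (helper329). -/

set_option autoImplicit false
set_option linter.unusedSectionVars false
set_option linter.unusedVariables false

open Finset Pool.Agent.TH700.PA

namespace Pool.Agent.Q329.TI

/-- The pairs of vertices. -/
abbrev Pr (n : ℕ) : Type := {e : Fin n × Fin n // e.1 < e.2}

/-- The graph given by its adjacency bits. -/
def gr {n : ℕ} (x : Pr n → Bool) : SimpleGraph (Fin n) where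
  Adj u v := (∃ h : u < v, x ⟨(u, v), h⟩ = true) ∨ ∃ h : v < u, x ⟨(v, u), h⟩ = true
  symm := ⟨fun u v h => h.symm⟩
  loopless := ⟨fun u h => by
    rcases h with ⟨h, -⟩ | ⟨h, -⟩
    · exact lt_irrefl _ h
    · exact lt_irrefl _ h⟩

/-- `C` is a vertex cover of `G`. -/
def Covers {V : Type} (G : SimpleGraph V) (C : Finset V) : Prop := ∀ u v, G.Adj u v → u ∈ C ∨ v ∈ C

variable {n : ℕ}

lemma covers_iff (x : Pr n → Bool) (C : Finset (Fin n)) :
    Covers (gr x) C ↔ ∀ e : Pr n, x e = true → e.1.1 ∈ C ∨ e.1.2 ∈ C := by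
  constructor
  · intro h e he
    exact h _ _ (Or.inl ⟨e.2, he⟩)
  · rintro h u v (⟨h1, h2⟩ | ⟨h1, h2⟩)
    · exact h _ h2
    · exact (h _ h2).symm

/-- the pairs inside a set -/
def ins (S : Finset (Fin n)) : Finset (Pr n) := univ.filter fun e => e.1.1 ∈ S ∧ e.1.2 ∈ S

lemma card_ins (S : Finset (Fin n)) : S.card * S.card ≤ 2 * (ins S).card + S.card := by
  classical
  have h1 : S.offDiag.card ≤ (ins S ×ˢ (univ : Finset Bool)).card := by
    refine le_trans (card_le_card (t := (ins S ×ˢ (univ : Finset Bool)).image fun y =>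
      if y.2 = true then (y.1.1.1, y.1.1.2) else (y.1.1.2, y.1.1.1)) ?_) card_image_le
    rintro ⟨u, v⟩ huv
    rw [mem_offDiag] at huv
    obtain ⟨hu, hv, hne⟩ := huv
    rw [mem_image]
    rcases lt_or_gt_of_ne hne with h | h
    · exact ⟨(⟨(u, v), h⟩, true), mem_product.mpr ⟨mem_filter.mpr ⟨mem_univ _, hu, hv⟩,
        mem_univ _⟩, by simp⟩
    · exact ⟨(⟨(v, u), h⟩, false), mem_product.mpr ⟨mem_filter.mpr ⟨mem_univ _, hv, hu⟩,
        mem_univ _⟩, by simp⟩
  rw [card_product, card_univ, Fintype.card_bool, offDiag_card] at h1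
  omega

/-- The lower bound. -/
theorem vc_lower (ε : ℝ) (hε : 0 < ε) : ∃ D : ℕ, 0 < D ∧ ∀ n : ℕ, D ≤ n →
    ∀ (μ : ℕ) (R : Type) [Fintype R] [Nonempty R] (K W : R → Type) [∀ ρ, Field (K ρ)]
      [∀ ρ, Fintype (W ρ)] (T : ∀ ρ, Net (K ρ) (Pr n) Bool (W ρ)) (a : ∀ ρ, W ρ → K ρ),
      (∀ ρ e, (T ρ).reads e ≤ 1) →
      (∀ ρ x, (∀ C, Covers (gr x) C → (1 - ε) * n ≤ C.card) → (T ρ).value (a ρ) x = 0) →
      (∀ x, (∃ C, Covers (gr x) C ∧ (C.card : ℝ) ≤ ε * n) →
        Nat.card R ≤ 2 ^ μ * Nat.card {ρ // (T ρ).value (a ρ) x ≠ 0}) →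
      ∃ ρ, 2 ^ n ≤ (2 ^ μ * Fintype.card (W ρ)) ^ D := by
  classical
  obtain ⟨b, hb⟩ : ∃ b : ℕ, b = ⌈4 / ε ^ 2⌉₊ := ⟨_, rfl⟩
  obtain ⟨h, hh⟩ : ∃ h : ℕ, h = ⌈2 / ε⌉₊ := ⟨_, rfl⟩
  have hb1 : 4 / ε ^ 2 ≤ b := by rw [hb]; exact Nat.le_ceil _
  have hh1 : 2 / ε ≤ h := by rw [hh]; exact Nat.le_ceil _
  have hb0 : 1 ≤ b := by
    have : (0 : ℝ) < b := lt_of_lt_of_le (by positivity) hb1
    exact_mod_cast this
  have hh0 : 1 ≤ h := by
    have : (0 : ℝ) < h := lt_of_lt_of_le (by positivity) hh1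
    exact_mod_cast this
  obtain ⟨D, hD, H⟩ := gen_lower b 1 h hb0 hh0
  refine ⟨D + ⌈2 / ε⌉₊ + 1, by omega, fun n hn μ R _ _ K W _ _ T a h1 hno hyes => ?_⟩
  have hn1 : 1 ≤ n := by omega
  have hnR : (1 : ℝ) ≤ n := by exact_mod_cast hn1
  have hnε : 2 ≤ ε * n := by
    have e1 : 2 / ε ≤ (n : ℝ) := (Nat.le_ceil _).trans (by exact_mod_cast (by omega))
    rw [div_le_iff₀ hε] at e1
    linarith
  have : Nonempty (Fin n) := ⟨⟨0, hn1⟩⟩
  obtain ⟨ρ, hρ⟩ := H n (by omega) (Fin n) (Pr n) {S : Finset (Fin n) // ε * n < S.card}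
    Subtype.val Subtype.val_injective (by rw [Fintype.card_fin]) (by
      refine (Fintype.card_le_of_injective _ Subtype.val_injective).trans (le_of_eq ?_)
      rw [Fintype.card_finset, Fintype.card_fin, one_mul])
    (fun S => ins S.1) (fun S => by
      have e1 := card_ins S.1
      have e2 := S.2
      have e3 : (2 : ℝ) ≤ (S.1.card : ℝ) := by linarith
      have e4 : ((S.1.card : ℕ) : ℝ) * S.1.card ≤ 2 * (ins S.1).card + S.1.card := by
        exact_mod_cast e1
      have e5 : (S.1.card : ℝ) ^ 2 ≤ 4 * (ins S.1).card := by nlinarith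
      have e6 : (ε * n) ^ 2 ≤ (S.1.card : ℝ) ^ 2 := pow_le_pow_left₀ (by positivity) e2.le 2
      have e7 : (n : ℝ) * n ≤ b * (ins S.1).card := by
        have e8 : ε ^ 2 * ((n : ℝ) * n) ≤ 4 * (ins S.1).card := by nlinarith
        calc (n : ℝ) * n = (ε ^ 2 * ((n : ℝ) * n)) / ε ^ 2 := by field_simp
          _ ≤ (4 * (ins S.1).card) / ε ^ 2 := div_le_div_of_nonneg_right e8 (by positivity)
          _ = 4 / ε ^ 2 * (ins S.1).card := by ring
          _ ≤ _ := mul_le_mul_of_nonneg_right hb1 (Nat.cast_nonneg _)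
      exact_mod_cast e7) μ R K W T a h1
    (fun ρ x hx => by
      refine hno ρ x fun C hC => ?_
      by_contra hlt
      push Not at hlt
      have e1 : ε * n < ((Cᶜ : Finset (Fin n)).card : ℝ) := by
        rw [card_compl, Fintype.card_fin, Nat.cast_sub (by
          have := card_le_univ C
          rwa [Fintype.card_fin] at this)]
        linarith
      obtain ⟨e, he, hxe⟩ := hx ⟨Cᶜ, e1⟩
      have e2 := (mem_filter.mp he).2
      rw [mem_compl, mem_compl] at e2
      rcases (covers_iff x C).1 hC e hxe with h | h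
      · exact e2.1 h
      · exact e2.2 h)
    (fun l hl => by
      refine hyes _ ⟨univ.filter fun v => l v = 0, (covers_iff _ _).2 fun e he => ?_, ?_⟩
      · unfold plant at he
        rw [decide_eq_true_iff] at he
        rw [mem_filter, mem_filter]
        rcases he with he | he
        · exact Or.inl ⟨mem_univ _, he⟩
        · exact Or.inr ⟨mem_univ _, he⟩
      · rw [Fintype.card_fin] at hl
        have e1 : ((h : ℝ) + 1) * ((univ.filter fun v => l v = 0).card : ℝ) ≤ 2 * n := by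
          exact_mod_cast hl
        have e2 : (2 : ℝ) ≤ ε * h := by
          rw [div_le_iff₀ hε] at hh1
          linarith
        have e3 : 2 * ((univ.filter fun v => l v = 0).card : ℝ) ≤
            ε * (((h : ℝ) + 1) * ((univ.filter fun v => l v = 0).card : ℝ)) := by
          have e4 : (0 : ℝ) ≤ ((univ.filter fun v => l v = 0).card : ℝ) := Nat.cast_nonneg _
          nlinarith
        have e5 := mul_le_mul_of_nonneg_left e1 hε.le
        linarith)
  refine ⟨ρ, hρ.trans (Nat.pow_le_pow_right ?_ (by omega))⟩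
  rcases Nat.eq_zero_or_pos (2 ^ μ * Fintype.card (W ρ)) with h0 | h0
  · rw [h0, zero_pow (by omega)] at hρ
    exact absurd hρ (by simp)
  · exact h0

/-- The exact count by linear networks. -/
theorem vc_upper (n k : ℕ) (hn : 2 ≤ n) :
    ∃ (T : Net ℚ (Pr n) Bool {C : Finset (Fin n) // C.card ≤ k})
      (a : {C : Finset (Fin n) // C.card ≤ k} → ℚ),
      T.Linear ∧ (∀ e, T.reads e = 1) ∧ ∀ x, T.value a x ≠ 0 ↔
        ∃ C, Covers (gr x) C ∧ C.card ≤ k := by
  classical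
  have : Nonempty (Pr n) := ⟨⟨(⟨0, by omega⟩, ⟨1, by omega⟩), by
    show (0 : ℕ) < 1
    norm_num⟩⟩
  obtain ⟨T, h1, h2, h3, h4⟩ := exists_product (K := ℚ)
    (fun (e : Pr n) (ω : Bool) (C : {C : Finset (Fin n) // C.card ≤ k}) =>
      if ω = true → e.1.1 ∈ C.1 ∨ e.1.2 ∈ C.1 then (1 : ℚ) else 0)
  refine ⟨T, fun _ => 1, h1, h2, fun x => ?_⟩
  have h5 : ∀ C, 0 ≤ T.eval x C ∧ (T.eval x C ≠ 0 ↔ Covers (gr x) C.1) := by
    intro C
    rw [h4, covers_iff]
    refine ⟨prod_nonneg fun e _ => by split_ifs <;> norm_num, ?_⟩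
    rw [prod_ne_zero_iff]
    constructor
    · intro h e
      by_contra hcon
      exact h e (mem_univ _) (if_neg hcon)
    · intro h e _
      rw [if_pos (h e)]
      exact one_ne_zero
  unfold Net.value
  rw [Ne, sum_eq_zero_iff_of_nonneg (fun k _ => by
    rw [one_mul]
    exact (h5 k).1)]
  push Not
  constructor
  · rintro ⟨C, -, hC⟩
    rw [one_mul] at hC
    exact ⟨C.1, (h5 C).2.1 hC, C.2⟩
  · rintro ⟨C, hC, hk⟩
    refine ⟨⟨C, hk⟩, mem_univ _, ?_⟩
    rw [one_mul]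
    exact (h5 _).2.2 hC

end Pool.Agent.Q329.TI
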